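import Pool.Agent.N755.KMF.Fam
import Pool.Agent.N24.KM.All

/-!
# MP_f5d5f4_nt: no congruences along metric sequences of elliptic curves

Let `c_n`, `n = 0, 1, 2, …`, be one of the following sequences of vectors of integers with coordinates
indexed by a finite set `ι`:

* `c_n = (⌊a_i(n) α_i⌋)_i` for ANY sequences `a_i(n)` of different integers (or of real numbers with
  mutual distances at least `δ`), for example `a_i(n) = n!`, `2 ^ n`, a very thin subsequence of the
  primes, or any enumeration of any infinite set of integers;
* `c_n = (⌊ξ_i α_i ^ k(n)⌋)_i` for ANY sequence `k(n)` of different natural numbers and `ξ_i ≠ 0`;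
* `c_n = (⌊f_{i,n}(α_i)⌋)_i` for any functions with the hypothesis of Koksma's theorem.

**Theorem.** For almost all real vectors `α` (with `α_i > 1` in the second case, in the box in the third) there
is a set `T` of times of density zero, such that for ALL source families `E` in some of the coordinates (all
curves `y² = x³ + c_i x + c_j`, and all one-parameter families `y² = x³ + A(c_i) x + B(c_i)` with an
`I₁` fibre), for ALL target families `F` in the other coordinates (`y² = x³ + A'(c) x + B'(c)` with
arbitrary polynomials `A'`, `B'` in several variables), and for ALL `D`, with the exception of finitely many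
`n`, for all `n ∉ T`:

1. every elliptic curve over `ℚ` with integral coefficients which has a congruence with `E_n` has more than `D`
   primes above `D` in its discriminant;
2. the pair `E_n`, `F_n` has no congruence,

where a congruence is an isomorphism of the `m`-torsion for some `m ≥ 2` as Galois modules over `ℚ`, or over
some number field `L`, if `m` has a prime factor `l ≥ 3`, `l > [L : ℚ]`.

Proof. Modulo the squares of the primes `q` the vectors `c` such that `q` divides the discriminant of `E_c` exactly
once and not that of `F_c` have density `≫ ρ(q) / q` (theorems of Turan and Schwartz-Zippel type), and the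
sum diverges: the vectors with at most `D + 1` such primes `q > D` form a set whose closure in the
product of the `ℤ_q` has measure zero (engine RW of helper24). By Koksma's theorem, in many
variables, the sequences are equidistributed in the profinite sense for almost all `α` (engine KM of helper24). The
local theorems (`Pool.Agent.TH4.FZ.key_bad`, `Pool.Agent.TH894.NJ.no_iso`) finish the proof.
-/

set_option autoImplicit false

namespace Pool.Agent.Results.MP_f5d5f4_nt.MetricSequences

open MeasureTheory Filter Topology Polynomial
open Pool.Agent.N24.KM (Koksma)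
open Pool.Agent.N755.KMF (Source Target Far)
open Pool.Agent.Results.MP_f5d5f4_nt.FewDigitFamilies (NoCongruence)

/-- the set `T` of times has density zero -/
def DensityZero (T : Set ℕ) : Prop :=
  Tendsto (fun N : ℕ => ({n : ℕ | n < N ∧ n ∈ T}.ncard : ℝ) / (N : ℝ)) atTop (𝓝 0)

/-- Outside a set of times of density zero, for all source families `E`, all target families `F` in other
coordinates and all `D`, and for all `n` but finitely many, every curve with a congruence with `E (c n)` has
more than `D` primes above `D` in its discriminant, and the pair `E (c n)`, `F (c n)` has no congruence. -/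
def NoCongruences {ι : Type} (c : ℕ → ι → ℤ) : Prop :=
  ∃ T : Set ℕ, DensityZero T ∧ ∀ (J : Set ι) (E F : (ι → ℤ) → ℤ × ℤ), Source J E → Target J F →
    ∀ D : ℕ, {n : ℕ | n ∉ T ∧ ¬ (Far D (E (c n)).1 (E (c n)).2 ∧
      NoCongruence (E (c n)).1 (E (c n)).2 (F (c n)).1 (F (c n)).2)}.Finite

lemma of_rarely {ι : Type} [Fintype ι] {c : ℕ → ι → ℤ}
    (h : ∀ d : Pool.Agent.N755.KMF.Data ι, Pool.Agent.N24.KM.Rarely c (Pool.Agent.N755.KMF.bad d)) :
    NoCongruences c := Pool.Agent.N755.KMF.isolated h

/-- **No congruences along metric sequences.** -/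
theorem result {ι : Type} [Fintype ι] :
    (∀ (a : ι → ℕ → ℝ) (δ : ℝ), 0 < δ → (∀ i m n, m ≠ n → δ ≤ |a i m - a i n|) →
      ∀ᵐ α : ι → ℝ, NoCongruences fun n i => ⌊a i n * α i⌋) ∧
    (∀ (k : ℕ → ℕ) (ξ : ι → ℝ), Function.Injective k → (∀ i, ξ i ≠ 0) →
      ∀ᵐ α : ι → ℝ, (∀ i, 1 < α i) → NoCongruences fun n i => ⌊ξ i * α i ^ k n⌋) ∧
    ∀ (a b : ι → ℝ) (f : ι → ℕ → ℝ → ℝ), (∀ i, a i < b i) → (∀ i, Koksma (a i) (b i) (f i)) →
      ∀ᵐ α : ι → ℝ, (∀ i, α i ∈ Set.Icc (a i) (b i)) → NoCongruences fun n i => ⌊f i n (α i)⌋ := by
  have := Pool.Agent.N755.KMF.cD (ι := ι)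
  have hM : ∀ d : Pool.Agent.N755.KMF.Data ι,
      Pool.Agent.N24.KM.Metric (Pool.Agent.N755.KMF.bad d) := fun d =>
    Pool.Agent.N24.KM.main ι _ (Pool.Agent.N755.KMF.null_bad d)
  refine ⟨fun a δ hδ h => ?_, fun k ξ hk hξ => ?_, fun a b f hab hf => ?_⟩
  · have h1 := ae_all_iff.2 fun d : Pool.Agent.N755.KMF.Data ι => (hM d).2.1 a δ hδ h
    filter_upwards [h1] with α hα
    exact of_rarely hα
  · have h1 := ae_all_iff.2 fun d : Pool.Agent.N755.KMF.Data ι => (hM d).2.2 k ξ hk hξ
    filter_upwards [h1] with α hα h2
    exact of_rarely fun d => hα d h2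
  · have h1 := ae_all_iff.2 fun d : Pool.Agent.N755.KMF.Data ι => (hM d).1 a b f hab hf
    filter_upwards [h1] with α hα h2
    exact of_rarely fun d => hα d h2

end Pool.Agent.Results.MP_f5d5f4_nt.MetricSequences
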