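import Pool.Agent.N644.FMR.Loc
import Pool.Agent.N644.FMR.Dens
import Pool.Agent.N24.RW.All

/-!
# MP_f5d5f4_nt: random orbits of thin groups; congruences over infinite extensions with bounded ramification

Let `E_t : y² = x³ + A(t)x + B(t)` be a one-parameter family over `ℚ` with an `I₁` fibre (`4A³ + 27B²` has an irreducible
factor of multiplicity one), `F_s : y² = x³ + A'(s)x + B'(s)` any one-parameter family of elliptic curves (`F = E` is allowed),
and let `(t, s)` be two coordinates of a vector `c ∈ ℤ^r`. For a random walk on a finite set of matrices in `SL_r(ℤ)` which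
generates `SL_r(ℤ/m)` for all `m` prime to some `q₀` (for example a finite generating set of a Zariski dense subgroup of infinite
index), starting at any `v ≠ 0`, almost surely: for all such families and all `D` the following holds at all times except for a
set of times of density zero. `E_t` and `F_s` are elliptic curves, and every elliptic curve which is congruent to `E_t` modulo
some `n ≥ 2` over an algebraic extension `K` of `ℚ`, of finite or infinite degree, in which all primes `q > D` are unramified, or
over an extension of `K` of degree less than some prime factor of `n`, has more than `D` primes of bad reduction larger than `D`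
at which `F_s` has good reduction. In particular `E_t` and `F_s` are not congruent.

Proof. Let the prime `q ≥ 5`, `q ≠ l`, divide `4A(t)³ + 27B(t)²` exactly once and not the discriminant of `E''`. By the local
computations of the libraries `W275/FM`, `W275/FML` and `TH894/NJ` some element of the inertia group at `q` acts on `E[l]`
nontrivially, unipotently if `l ≥ 3`, and trivially on `E''[l]`. The inertia group at `q` acts trivially on the number fields whose
discriminant is prime to `q`, because two columns of the matrix of the conjugates of an integral basis would be congruent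
modulo a prime above `q`; so the element can be chosen to fix `K` (Galois correspondence), and one of its powers with exponent
`0 < j < l` fixes a given extension of `K` of degree less than `l`. Many such primes `q > D` exist outside a pronull set of
vectors `c`: the densities of the residue classes modulo `q²` have a divergent sum by Mertens' theorem for the roots of the
irreducible factor (`H474R2`), and a divergent series splits into many divergent series. Pronull sets are almost never visited
(the engine `N24/RW`).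
-/

set_option autoImplicit false

namespace Pool.Agent.Results.MP_f5d5f4_nt.RandomOrbits

open Finset Filter Polynomial Topology MeasureTheory
open Pool.Agent.N24.RW (Walk orb words ProNull)

/-- The curve `y² = x³ + Ax + B` over `ℚ`. -/
def curve (A B : ℤ) : WeierstrassCurve ℚ := ⟨0, 0, 0, A, B⟩

/-- The group of its points over the algebraic closure of `ℚ`. -/
abbrev Points (A B : ℤ) : Type := ((curve A B).baseChange (AlgebraicClosure ℚ)).toAffine.Point

open scoped Classical in
/-- The action of an automorphism `σ` of the algebraic closure on the points. -/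
noncomputable def galois (A B : ℤ) (σ : AlgebraicClosure ℚ ≃ₐ[ℚ] AlgebraicClosure ℚ) :
    Points A B →+ Points A B :=
  WeierstrassCurve.Affine.Point.map
    (σ : AlgebraicClosure ℚ →ₐ[ℚ] AlgebraicClosure ℚ)

open scoped Classical in
/-- The `n`-torsion of `y² = x³ + Ax + B` and that of `y² = x³ + A'x + B'` are isomorphic as modules over the Galois group of the
field `M`: some map between the groups of points restricts to a bijective additive map of the `n`-torsion which commutes with all
automorphisms of the algebraic closure which fix `M`. -/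
def CongruentOver (M : Set (AlgebraicClosure ℚ)) (n : ℕ) (A B A' B' : ℤ) : Prop :=
  ∃ f : Points A B → Points A' B', (∀ P Q, n • P = 0 → n • Q = 0 → f (P + Q) = f P + f Q) ∧
    Set.BijOn f {P | n • P = 0} {Q | n • Q = 0} ∧
    ∀ σ : AlgebraicClosure ℚ ≃ₐ[ℚ] AlgebraicClosure ℚ, (∀ x ∈ M, σ x = x) →
      ∀ P : Points A B, n • P = 0 → f (galois A B σ P) = galois A' B' σ (f P)

/-- All primes `q > D` are unramified in the algebraic extension `K` of `ℚ`, which may have infinite degree: `q` does not divide
the discriminant of any number field contained in `K`. -/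
def UnramifiedAbove (D : ℕ) (K : IntermediateField ℚ (AlgebraicClosure ℚ)) : Prop :=
  ∀ (F : IntermediateField ℚ (AlgebraicClosure ℚ)) [NumberField F], F ≤ K → ∀ q : ℕ, q.Prime → D < q →
    ¬ (q : ℤ) ∣ NumberField.discr F

/-- `E : y² = x³ + Ax + B` and `E' : y² = x³ + A'x + B'` are elliptic curves, and for every algebraic extension `K` of `ℚ` in
which all primes `q > D` are unramified, every prime `l`, every extension `M` of `K` of degree less than `l` and every multiple
`n` of `l`: every elliptic curve `E'' : y² = x³ + ax + b` whose `n`-torsion is isomorphic over `M` to the one of `E` has a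
discriminant divisible by more than `D` primes `q > D` which do not divide the discriminant of `E'` (so `E'' ≠ E'`). -/
def Isolated (D : ℕ) (A B A' B' : ℤ) : Prop :=
  4 * A ^ 3 + 27 * B ^ 2 ≠ 0 ∧ 4 * A' ^ 3 + 27 * B' ^ 2 ≠ 0 ∧
    ∀ K : IntermediateField ℚ (AlgebraicClosure ℚ), UnramifiedAbove D K →
      ∀ (M : IntermediateField K (AlgebraicClosure ℚ)) [FiniteDimensional K M] (l n : ℕ), l.Prime →
        Module.finrank K M < l → l ∣ n → ∀ a b : ℤ, 4 * a ^ 3 + 27 * b ^ 2 ≠ 0 →
          CongruentOver (M : Set (AlgebraicClosure ℚ)) n A B a b →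
            ∃ S : Finset ℕ, D < S.card ∧ ∀ q ∈ S, q.Prime ∧ D < q ∧ (q : ℤ) ∣ 4 * a ^ 3 + 27 * b ^ 2 ∧
              ¬ (q : ℤ) ∣ 4 * A' ^ 3 + 27 * B' ^ 2

/-- The family `y² = x³ + A(t)x + B(t)` has an `I₁` fibre: an irreducible polynomial of positive degree divides `4A³ + 27B²`
exactly once. -/
def HasNode (A B : ℤ[X]) : Prop :=
  ∃ P : ℤ[X], Irreducible P ∧ 0 < P.natDegree ∧ P ∣ 4 * A ^ 3 + 27 * B ^ 2 ∧ ¬ P ^ 2 ∣ 4 * A ^ 3 + 27 * B ^ 2

/-- Many primes suffice. -/
lemma isolated_of {D : ℕ} {A B A' B' : ℤ} (h : ∃ S : Finset ℕ, S.card = D + 2 ∧ ∀ q ∈ S, D < q ∧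
    Pool.Agent.W275.FM.Ex q A B ∧ ¬ (q : ℤ) ∣ Pool.Agent.W275.FM.dsc A' B') : Isolated D A B A' B' := by
  obtain ⟨S, hS, hq⟩ := h
  obtain ⟨q₀, hq₀⟩ : S.Nonempty := by
    rw [← Finset.card_pos]
    omega
  have h0 : Pool.Agent.W275.FM.dsc A B ≠ 0 := by
    intro h0
    apply (hq q₀ hq₀).2.1.2.2.2
    rw [h0]
    exact dvd_zero _
  have h0' : Pool.Agent.W275.FM.dsc A' B' ≠ 0 := by
    intro h0
    apply (hq q₀ hq₀).2.2
    rw [h0]
    exact dvd_zero _
  refine ⟨h0, h0', fun K hK M hfd l n hl hM hln a b _ hc => ?_⟩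
  refine ⟨S.erase l, ?_, ?_⟩
  · have := Finset.pred_card_le_card_erase (s := S) (a := l)
    omega
  · intro q hqe
    rw [Finset.mem_erase] at hqe
    obtain ⟨h1, h2, h3⟩ := hq q hqe.2
    have hU : Pool.Agent.N644.FMR.Unr q K := by
      intro F hF hFK
      exact hK F hFK q h2.1 h1
    refine ⟨h2.1, h1, ?_, h3⟩
    by_contra hd
    exact Pool.Agent.N644.FMR.no_isoM A B a b q l n h2 hd hl hqe.1 hln K hU M hM hc

/-- the exceptional set is pronull -/
theorem pronull (ι : Type) [Fintype ι] [DecidableEq ι] (A B A' B' : ℤ[X]) (hAB : HasNode A B)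
    (hD' : 4 * A' ^ 3 + 27 * B' ^ 2 ≠ 0) (i j : ι) (hij : i ≠ j) (D : ℕ) :
    ProNull {c : ι → ℤ | ¬ Isolated D (A.eval (c i)) (B.eval (c i)) (A'.eval (c j)) (B'.eval (c j))} := by
  obtain ⟨P, hP, hd, hPD, hP2⟩ := hAB
  have hinj : Function.Injective (![i, j] : Fin 2 → ι) := by
    intro a b hab
    fin_cases a <;> fin_cases b
    · rfl
    · exact absurd hab hij
    · exact absurd hab hij.symm
    · rfl
  have h2 := Pool.Agent.N644.FMR.good_primes Pool.Agent.N24.RW.crit Pool.Agent.N24.RW.clo A B P A' B' hP hd hPD hP2 hD'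
    D (D + 2)
  have h3 := (Pool.Agent.N24.RW.clo (Fin 2)).2.2.2.2 ι ![i, j] hinj _ h2
  refine (Pool.Agent.N24.RW.clo ι).1 _ _ ?_ h3
  intro c hc
  show ¬ ∃ S : Finset ℕ, S.card = D + 2 ∧ ∀ q ∈ S, D < q ∧
    Pool.Agent.W275.FM.Ex q (A.eval (c i)) (B.eval (c i)) ∧
    ¬ (q : ℤ) ∣ Pool.Agent.W275.FM.dsc (A'.eval (c j)) (B'.eval (c j))
  intro hcon
  exact hc (isolated_of hcon)

lemma countable_poly : Countable ℤ[X] := by
  rw [← Cardinal.mk_le_aleph0_iff]
  refine Polynomial.cardinalMk_le_max.trans ?_
  rw [max_le_iff]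
  exact ⟨Cardinal.mk_le_aleph0, le_rfl⟩

/-- **Pairs from two one-parameter families at two coordinates of a random orbit.** (1) Let the family `A, B` have an `I₁` fibre,
`4A'³ + 27B'² ≠ 0`, and let `i ≠ j` be two coordinates of `ℤ^ι`. For every `D` the set of the vectors `c` for which `Isolated D`
does not hold for `E : y² = x³ + A(c_i)x + B(c_i)`, `E' : y² = x³ + A'(c_j)x + B'(c_j)` is pronull. (2) For every walk `W` and
every `v ≠ 0`, for almost all words `w`, for all such families, all `i ≠ j` and all `D`, `Isolated D` holds for these curves at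
the point `c = orb W v w n` of the orbit for all `n` outside a set of density zero. -/
theorem result (ι : Type) [Fintype ι] [DecidableEq ι] :
    (∀ A B A' B' : ℤ[X], HasNode A B → 4 * A' ^ 3 + 27 * B' ^ 2 ≠ 0 → ∀ i j : ι, i ≠ j → ∀ D : ℕ,
      ProNull {c : ι → ℤ | ¬ Isolated D (A.eval (c i)) (B.eval (c i)) (A'.eval (c j)) (B'.eval (c j))}) ∧
    ∀ (W : Walk ι) (v : ι → ℤ), v ≠ 0 → ∀ᵐ w ∂(words W.m),
      ∀ A B A' B' : ℤ[X], HasNode A B → 4 * A' ^ 3 + 27 * B' ^ 2 ≠ 0 → ∀ i j : ι, i ≠ j → ∀ D : ℕ,
        Tendsto (fun N : ℕ => (({n : ℕ | n < N ∧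
          ¬ Isolated D (A.eval (orb W v w n i)) (B.eval (orb W v w n i))
            (A'.eval (orb W v w n j)) (B'.eval (orb W v w n j))}.ncard : ℕ) : ℝ) / (N : ℝ)) atTop (𝓝 0) := by
  refine ⟨fun A B A' B' hAB hD' i j hij D => pronull ι A B A' B' hAB hD' i j hij D, fun W v hv => ?_⟩
  have : Countable ℤ[X] := countable_poly
  have h4 : ∀ (A B A' B' : ℤ[X]) (i j : ι) (D : ℕ), ∀ᵐ w ∂(words W.m),
      (HasNode A B → 4 * A' ^ 3 + 27 * B' ^ 2 ≠ 0 → i ≠ j →
        Tendsto (fun N : ℕ => (({n : ℕ | n < N ∧
          orb W v w n ∈ {c : ι → ℤ | ¬ Isolated D (A.eval (c i)) (B.eval (c i)) (A'.eval (c j)) (B'.eval (c j))}}.ncard : ℕ) : ℝ)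
            / (N : ℝ)) atTop (𝓝 0)) := by
    intro A B A' B' i j D
    by_cases h : HasNode A B ∧ 4 * A' ^ 3 + 27 * B' ^ 2 ≠ 0 ∧ i ≠ j
    · obtain ⟨a1, a2, a3⟩ := h
      have hcard : 2 ≤ Fintype.card ι := by
        have : Nontrivial ι := ⟨i, j, a3⟩
        exact Fintype.one_lt_card
      have h5 := Pool.Agent.N24.RW.main ι hcard W v hv _ (pronull ι A B A' B' a1 a2 i j a3 D)
      unfold Pool.Agent.N24.RW.AlmostNever at h5
      filter_upwards [h5] with w hw _ _ _
      exact hw
    · refine Eventually.of_forall fun w a1 a2 a3 => ?_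
      exact absurd ⟨a1, a2, a3⟩ h
  simp only [← ae_all_iff] at h4
  filter_upwards [h4] with w hw A B A' B' a1 a2 i j a3 D
  exact hw A B A' B' i j D a1 a2 a3

end Pool.Agent.Results.MP_f5d5f4_nt.RandomOrbits
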