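import Mathlib
import Pool.Agent.N365.FM.C

/-!
# MP_f5d5f4_nt: all but few members of every one-parameter family have no congruence modulo a large
# prime with a curve of small conductor, over all number fields at once

Let `J = A / D` be a non-constant rational function of degree `N` over `ℚ`, for example the
`j`-invariant of an elliptic curve over `ℚ(T)`, and `ε > 0`.  Its poles may have any degree, so that
squarefree values of `D` are not understood.  Among the about `B ^ 2` rational numbers `t` of height
at most `B` all but `O(B ^ ε)` (all but `O(B ^ (1 + ε))` if `J` has only one pole on the projective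
line), and among the integers `|t| ≤ B` all but `O(B ^ ε)` if `D` is not constant, have the following
property:

for EVERY number field `K`, of whatever degree, EVERY elliptic curve `E` over `K` with invariant
`J(t)`, EVERY prime `p` with `p ≥ 13`, `p ≥ 16 (N + 1) / ε` and `p > [K : ℚ]`, and EVERY elliptic
curve `E'` over `K` with the same `p`-division field as `E`, in particular every `E'` which is
`p`-congruent to `E`, there are prime numbers with product at least `B ^ (ε / 32)` such that `E'` has
potentially multiplicative reduction at ALL places of `K` above them.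

So no elliptic curve `E'` over `K` whose conductor has norm less than `B ^ (ε / 32)` is `p`-congruent
to `E`, for all these `K`, `E` and `p` at once.  The bounds for the primes depend neither on `K` nor on
the family, apart from its degree, and the exceptional set does not depend on `K`, `p`, `E` and `E'`.

Proof.  The theorem of `Pool.Agent.N365.HY.I` gives, outside the exceptional set, a set of primes `l`
with product at least `B ^ (ε / 8)` at which `J(t)` has a pole.  Those at which `p` divides the order of
the pole have a product at most `B ^ ((N + 1) / p)`.  If `p` does not divide the order of the pole at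
`l`, it does not divide the order of the pole of `J(t)` at any place `v` of `K` above `l`, as
`p > [K : ℚ]`; so `v` is a pole of `j(E')` by the local theorem of helper673
(`Pool.Agent.Y673.FM.loc`, which also covers the places above `p`).
-/

set_option autoImplicit false

open WeierstrassCurve NumberField IsDedekindDomain Polynomial
open scoped Classical

namespace Pool.Agent.Results.MP_f5d5f4_nt.SmallConductorPartners

section
variable {K : Type} [Field K]

/-- The curve `y² = x³ + ax + b` over `K`. -/
def curve (a b : K) : WeierstrassCurve K := ⟨0, 0, 0, a, b⟩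

/-- The group of its points over the algebraic closure of `K`. -/
abbrev Points (a b : K) : Type := ((curve a b).baseChange (AlgebraicClosure K)).toAffine.Point

/-- The action of a `K`-automorphism `σ` of the algebraic closure on the points. -/
noncomputable def galois (a b : K) (σ : AlgebraicClosure K ≃ₐ[K] AlgebraicClosure K) :
    Points a b →+ Points a b :=
  WeierstrassCurve.Affine.Point.map (σ : AlgebraicClosure K →ₐ[K] AlgebraicClosure K)

/-- The curves `y² = x³ + ax + b` and `y² = x³ + a'x + b'` have the same `p`-division field: an
automorphism fixes all points killed by `p` of the first if and only if it fixes all points killed by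
`p` of the second.  This holds if there is an isomorphism (or only a bijective map) between the groups
of points killed by `p` which commutes with the Galois action. -/
def SameDivisionField (p : ℕ) (a b a' b' : K) : Prop :=
  ∀ σ : AlgebraicClosure K ≃ₐ[K] AlgebraicClosure K,
    (∀ P : Points a b, p • P = 0 → galois a b σ P = P) ↔
      (∀ P : Points a' b', p • P = 0 → galois a' b' σ P = P)

/-- The invariant of `y² = x³ + ax + b`. -/
noncomputable def jInvariant (a b : K) : K := 6912 * a ^ 3 / (4 * a ^ 3 + 27 * b ^ 2)

end

/-- The curve `y² = x³ + ax + b` has potentially multiplicative reduction, that is, its invariant has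
a pole, at all places of `K` above the prime number `l`. -/
def MultiplicativeAbove {K : Type} [Field K] [NumberField K] (l : ℕ) (a b : K) : Prop :=
  ∀ v : HeightOneSpectrum (𝓞 K), ((l : ℕ) : 𝓞 K) ∈ v.asIdeal → 1 < v.valuation K (jInvariant a b)

/-- For all number fields `K`, all elliptic curves `E` over `K` of invariant `j`, all primes `p` with
`p ≥ 13`, `p ≥ c` and `p > [K : ℚ]` and all elliptic curves `E'` over `K` with the same `p`-division
field as `E`, there are prime numbers with product at least `X` such that `E'` has potentially
multiplicative reduction at all places of `K` above them. -/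
def NoSmallPartner (c X : ℝ) (j : ℚ) : Prop :=
  ∀ (K : Type) [Field K] [NumberField K] (a b a' b' : K),
    4 * a ^ 3 + 27 * b ^ 2 ≠ 0 → 4 * a' ^ 3 + 27 * b' ^ 2 ≠ 0 → jInvariant a b = (j : K) →
    ∀ p : ℕ, p.Prime → 13 ≤ p → c ≤ p → Module.finrank ℚ K < p → SameDivisionField p a b a' b' →
      ∃ F : Finset ℕ, (∀ l ∈ F, l.Prime ∧ MultiplicativeAbove l a' b') ∧
        X ≤ ((∏ l ∈ F, l : ℕ) : ℝ)

/-- `A / D` is a rational function of degree `N ≥ 1` in lowest terms. -/
structure IsFunction (N : ℕ) (A D : ℤ[X]) : Prop where
  pos : 1 ≤ N
  deg_num : A.natDegree ≤ N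
  deg_den : D.natDegree ≤ N
  deg : A.natDegree = N ∨ D.natDegree = N
  coprime : IsCoprime (A.map (Int.castRingHom ℚ)) (D.map (Int.castRingHom ℚ))

/-- The number of the different poles on the projective line over `ℂ` of the function `A / D` of
degree `N`: the roots of `D`, and infinity if `deg D < N`. -/
noncomputable def poleCount (N : ℕ) (D : ℤ[X]) : ℕ :=
  (D.map (Int.castRingHom ℂ)).roots.toFinset.card + if D.natDegree < N then 1 else 0

/-- The value of the polynomial `f` at the rational number `t`. -/
noncomputable def value (f : ℤ[X]) (t : ℚ) : ℚ := f.eval₂ (Int.castRingHom ℚ) t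

/-- `t` is not a pole of `J = A / D`, and the members of the family at `t`, that is, the elliptic
curves of invariant `J(t)`, have no partners with few bad primes. -/
def HoldsAt (c X : ℝ) (A D : ℤ[X]) (t : ℚ) : Prop :=
  value D t ≠ 0 ∧ NoSmallPartner c X (value A t / value D t)

/-- **Theorem.** For every rational function `A / D` of degree `N` over `ℚ` and every `ε > 0`, all
rational numbers `t` of height at most `B` with at most `C B ^ (1 + ε)` exceptions, with at most
`C B ^ ε` exceptions if the function has at least two poles, and all integers `|t| ≤ B` with at most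
`C B ^ ε` exceptions if `D` is not constant, have the property `HoldsAt` for the primes
`p ≥ max 13 (16 (N + 1) / ε)` and products of bad primes at least `B ^ (ε / 32)`. -/
theorem result (N : ℕ) (A D : ℤ[X]) (h : IsFunction N A D) (ε : ℝ) (hε : 0 < ε) :
    (∃ C : ℝ, ∀ B : ℕ, 1 ≤ B → ({t : ℚ | |t.num| ≤ B ∧ t.den ≤ B ∧
      ¬ HoldsAt (16 * (N + 1) / ε) ((B : ℝ) ^ (ε / 32)) A D t}.ncard : ℝ) ≤
        C * (B : ℝ) ^ (1 + ε)) ∧
    (2 ≤ poleCount N D → ∃ C : ℝ, ∀ B : ℕ, 1 ≤ B → ({t : ℚ | |t.num| ≤ B ∧ t.den ≤ B ∧
      ¬ HoldsAt (16 * (N + 1) / ε) ((B : ℝ) ^ (ε / 32)) A D t}.ncard : ℝ) ≤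
        C * (B : ℝ) ^ ε) ∧
    (1 ≤ D.natDegree → ∃ C : ℝ, ∀ B : ℕ, 1 ≤ B → ({t : ℤ | |t| ≤ B ∧
      ¬ HoldsAt (16 * (N + 1) / ε) ((B : ℝ) ^ (ε / 32)) A D t}.ncard : ℝ) ≤
        C * (B : ℝ) ^ ε) := by
  have hR : Pool.Agent.N365.LS.Rat N A D := ⟨h.pos, h.deg_num, h.deg_den, h.deg, h.coprime⟩
  have key : ∀ (c X : ℝ) (t : ℚ), HoldsAt c X A D t ↔ Pool.Agent.N365.FM.GoodAt c X A D t :=
    fun c X t => Iff.rfl
  have hpole : poleCount N D = Pool.Agent.N365.LS.poleCount N D := rfl
  obtain ⟨C, hC⟩ := Pool.Agent.N365.FM.few_rat hR hε
  simp only [key]
  refine ⟨⟨max C 0, fun B hB => ?_⟩, fun h2 => ⟨C, fun B hB => ?_⟩,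
    fun hD => Pool.Agent.N365.FM.few_int hR hD hε⟩
  · have hB1 : (1 : ℝ) ≤ B := by exact_mod_cast hB
    refine (hC B hB).trans (mul_le_mul (le_max_left _ _) ?_ (by positivity) (le_max_right _ _))
    refine Real.rpow_le_rpow_of_exponent_le hB1 ?_
    split_ifs <;> linarith
  · have h3 := hC B hB
    rw [if_pos (by rw [← hpole]; exact h2)] at h3
    exact h3

end Pool.Agent.Results.MP_f5d5f4_nt.SmallConductorPartners
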