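import Pool.Agent.N645.TF.Main
import Pool.Agent.N666.TM.Thin
import Pool.Agent.Results.MP_f5d5f4_nt.FewDigitFamilies

/-!
# MP_f5d5f4_nt: 100% of the curves in a thin sequence have no congruences

Let `E_n`, `n = 1, 2, 3, …`, be one of the following sequences of elliptic curves:

* `E_n : y² = x³ + ⌊P₁(n)⌋ x + ⌊P₂(n)⌋`, or
* `E_n : y² = x³ + A(t) x + B(t)`, `t = ⌊P(n)⌋`, where `A`, `B` are integer polynomials such that some
  irreducible factor of `4A³ + 27B²` has multiplicity one (the family has an `I₁` fibre),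

and `E'_k : y² = x³ + A'(s) x + B'(s)`, `s = (⌊P'_1(k)⌋, …, ⌊P'_r(k)⌋)`, a sequence of members of any
polynomial family in any number of parameters. Here `P`, `P_i`, `P'_i` are finite sums of real powers
with real coefficients whose leading exponents are positive and not integers (and different for `P₁`,
`P₂`, and for the `P'_i`) and whose leading coefficients are positive; for example
`E_n : y² = x³ + ⌊n ^ √2⌋ x + ⌊π n ^ (15/2) - n²⌋`.

**Theorem.** For all `ε > 0` there is `η > 0` such that for large `N` for all but a proportion `ε` of the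
integers `n ∈ (N, 2N]`, and for all but a proportion `ε` of the primes in `(N, 2N]`:

1. `E_n` has no congruence at any level `m ≥ 2` with ANY elliptic curve `y² = x³ + ax + b`, `a`, `b`
   integers, with `|4a³ + 27b²| ≤ N ^ η`;
2. for ALL `M ≥ N`, `E_n` has congruences, at whatever level, with at most the proportion `N ^ (-η)` of
   the curves `E'_k`, `k ∈ (M, 2M]`, and with at most the proportion `N ^ (-η)` of the `E'_k` for the
   primes `k ∈ (M, 2M]`.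

Moreover the `m`-torsion is not isomorphic over any number field `L` if `m` has a prime factor `l ≥ 3`
with `l > [L : ℚ]`.

Only `N` of the `N ^ (c₁ + c₂)` curves of the box of the same height occur in the sequence.

Proof. By exponential sums (`Pool.Agent.N666.VE`, `Pool.Agent.Y961.JR`) the vectors of the integer parts
are equidistributed modulo all integers up to `N ^ κ`, over the integers and over the primes. Turan's
sieve (`Pool.Agent.N666.TM.turan`) and Mertens' theorem for the roots of a polynomial show that for almost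
all `n` two primes `q₁ < q₂` in `(N ^ (2η), N ^ κ']` divide the discriminant of `E_n` exactly once. By the
local theorems (`Pool.Agent.TH4.FZ.key_bad`, `Pool.Agent.TH894.NJ.no_iso`) a curve with a congruence with
`E_n` has bad reduction at `q₁` or `q₂`.
-/

set_option autoImplicit false

namespace Pool.Agent.Results.MP_f5d5f4_nt.ThinSequences

open Polynomial
open Pool.Agent.Results.MP_f5d5f4_nt.FewDigitFamilies (NoCongruence)

/-- `c` is the largest exponent of the generalised polynomial `∑ a_x t ^ x`; it is positive and not an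
integer and has a positive coefficient. -/
def Admissible (F : Finset ℝ) (a : ℝ → ℝ) (c : ℝ) : Prop :=
  c ∈ F ∧ (∀ x ∈ F, x ≤ c) ∧ 0 < c ∧ (∀ m : ℕ, c ≠ m) ∧ 0 < a c

/-- `x n = (⌊P_1(n)⌋, …, ⌊P_r(n)⌋)` for generalised polynomials `P_i` with different leading
exponents which are positive and not integers, and with positive leading coefficients. -/
def Thin {r : ℕ} (x : ℕ → Fin r → ℤ) : Prop :=
  ∃ (F : Fin r → Finset ℝ) (a : Fin r → ℝ → ℝ) (c : Fin r → ℝ),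
    (∀ i, Admissible (F i) (a i) (c i)) ∧ Function.Injective c ∧
      ∀ n i, x n i = ⌊∑ t ∈ F i, a i t * (n : ℝ) ^ t⌋

/-- The coefficients of `E_n`: all curves `y² = x³ + ax + b` at a thin sequence of pairs `(a, b)`, or a
one-parameter family with an `I₁` fibre at a thin sequence of parameters. -/
def Source (E : ℕ → ℤ × ℤ) : Prop :=
  (∃ x : ℕ → Fin 2 → ℤ, Thin x ∧ ∀ n, E n = (x n 0, x n 1)) ∨
  ∃ (x : ℕ → Fin 1 → ℤ) (A B P : ℤ[X]), Thin x ∧ Irreducible P ∧ 0 < P.natDegree ∧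
    P ∣ 4 * A ^ 3 + 27 * B ^ 2 ∧ ¬ P ^ 2 ∣ 4 * A ^ 3 + 27 * B ^ 2 ∧
    ∀ n, E n = (A.eval (x n 0), B.eval (x n 0))

/-- The coefficients of `E'_k`: a polynomial family of curves in any number of parameters at a thin
sequence of parameters. -/
def Target (E' : ℕ → ℤ × ℤ) : Prop :=
  ∃ (r : ℕ) (x : ℕ → Fin (r + 1) → ℤ) (A' B' : MvPolynomial (Fin (r + 1)) ℤ), Thin x ∧
    4 * A' ^ 3 + 27 * B' ^ 2 ≠ 0 ∧
    ∀ k, E' k = (MvPolynomial.eval (x k) A', MvPolynomial.eval (x k) B')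

/-- The integers of `(N, 2N]`. -/
def ints (N : ℕ) : Finset ℕ := Finset.Ioc N (2 * N)

/-- The primes of `(N, 2N]`. -/
def primes (N : ℕ) : Finset ℕ := (Finset.Ioc N (2 * N)).filter Nat.Prime

/-- `E` has no congruences with elliptic curves of discriminant up to `N ^ η`, and for all `M ≥ N` with
all but the proportion `N ^ (-η)` of the curves `E' k` for the integers `k ∈ (M, 2M]`, and for the primes
`k ∈ (M, 2M]`. -/
def Good (E : ℤ × ℤ) (E' : ℕ → ℤ × ℤ) (η : ℝ) (N : ℕ) : Prop :=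
  (∀ a b : ℤ, 4 * a ^ 3 + 27 * b ^ 2 ≠ 0 → ((|4 * a ^ 3 + 27 * b ^ 2| : ℤ) : ℝ) ≤ (N : ℝ) ^ η →
    NoCongruence E.1 E.2 a b) ∧
  (∀ M : ℕ, N ≤ M → ({k : ℕ | k ∈ ints M ∧ ¬ NoCongruence E.1 E.2 (E' k).1 (E' k).2}.ncard : ℝ) ≤
    (N : ℝ) ^ (-η) * (ints M).card) ∧
  ∀ M : ℕ, N ≤ M → ({k : ℕ | k ∈ primes M ∧ ¬ NoCongruence E.1 E.2 (E' k).1 (E' k).2}.ncard : ℝ) ≤
    (N : ℝ) ^ (-η) * (primes M).card

/-- the sequences are well distributed -/
lemma well {r : ℕ} {x : ℕ → Fin (r + 1) → ℤ} (h : Thin x) :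
    (∃ κ : ℝ, 0 < κ ∧ ∃ N₀ : ℕ, ∀ N : ℕ, N₀ ≤ N → ∀ H : ℕ, (H : ℝ) ≤ (N : ℝ) ^ κ →
      Pool.Agent.N666.TM.Well (ints N) x H) ∧
    (∃ κ : ℝ, 0 < κ ∧ ∃ N₀ : ℕ, ∀ N : ℕ, N₀ ≤ N → ∀ H : ℕ, (H : ℝ) ≤ (N : ℝ) ^ κ →
      Pool.Agent.N666.TM.Well (primes N) x H) := by
  obtain ⟨F, a, c, h1, h2, h3⟩ := h
  have hx : x = Pool.Agent.N666.TM.fl F a := by
    funext n i
    exact h3 n i
  rw [hx]
  exact Pool.Agent.N666.TM.fl_well h1 h2

lemma no_cong {A B A' B' : ℤ} (h : Pool.Agent.N645.TF.T2 A B A' B') : NoCongruence A B A' B' :=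
  FewDigitFamilies.no_congruence h

/-- one of the two statements -/
lemma main_aux {r r' : ℕ} (E : (Fin r → ℤ) → ℤ × ℤ) (hE : Pool.Agent.N645.TF.Src E)
    (A' B' : MvPolynomial (Fin (r' + 1)) ℤ) (hD : 4 * A' ^ 3 + 27 * B' ^ 2 ≠ 0)
    {S : ℕ → Finset ℕ} {x : ℕ → Fin r → ℤ} {x' : ℕ → Fin (r' + 1) → ℤ} (hx' : Thin x')
    (hw : ∃ κ : ℝ, 0 < κ ∧ ∃ N₀ : ℕ, ∀ N : ℕ, N₀ ≤ N → ∀ H : ℕ, (H : ℝ) ≤ (N : ℝ) ^ κ →
      Pool.Agent.N666.TM.Well (S N) x H) (ε : ℝ) (hε : 0 < ε) :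
    ∃ η₀ : ℝ, 0 < η₀ ∧ ∀ η : ℝ, 0 < η → η ≤ η₀ → ∃ N₀ : ℕ, ∀ N : ℕ, N₀ ≤ N →
      ({n : ℕ | n ∈ S N ∧ ¬ Good (E (x n)) (fun k => (MvPolynomial.eval (x' k) A',
        MvPolynomial.eval (x' k) B')) η N}.ncard : ℝ) ≤ ε * (S N).card := by
  obtain ⟨⟨κ₁, hκ₁, hw₁⟩, ⟨κ₂, hκ₂, hw₂⟩⟩ := well hx'
  obtain ⟨κ, hκ, hw⟩ := hw
  obtain ⟨η₁, hη₁, h₁⟩ := Pool.Agent.N645.TF.thin_main E hE A' B' hD hκ hκ₁ hw hw₁ (ε / 2)
    (by positivity)
  obtain ⟨η₂, hη₂, h₂⟩ := Pool.Agent.N645.TF.thin_main E hE A' B' hD hκ hκ₂ hw hw₂ (ε / 2)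
    (by positivity)
  refine ⟨min η₁ η₂, lt_min hη₁ hη₂, fun η hη hηle => ?_⟩
  obtain ⟨N₁, hN₁⟩ := h₁ η hη (hηle.trans (min_le_left _ _))
  obtain ⟨N₂, hN₂⟩ := h₂ η hη (hηle.trans (min_le_right _ _))
  refine ⟨max N₁ N₂, fun N hN => ?_⟩
  have k1 := hN₁ N ((le_max_left _ _).trans hN)
  have k2 := hN₂ N ((le_max_right _ _).trans hN)
  set E' : ℕ → ℤ × ℤ := fun k => (MvPolynomial.eval (x' k) A', MvPolynomial.eval (x' k) B') with hE'
  have hsub : {n : ℕ | n ∈ S N ∧ ¬ Good (E (x n)) E' η N} ⊆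
      {n : ℕ | n ∈ S N ∧ ¬ Pool.Agent.N645.TF.Gd (E (x n)) ints E' η N} ∪
      {n : ℕ | n ∈ S N ∧ ¬ Pool.Agent.N645.TF.Gd (E (x n)) primes E' η N} := by
    rintro n ⟨hn, hn'⟩
    by_contra hcon
    rw [Set.mem_union, not_or] at hcon
    simp only [Set.mem_ofPred_eq, not_and, not_not] at hcon
    obtain ⟨g1, g2⟩ := hcon
    have g1 := g1 hn
    have g2 := g2 hn
    have hmono : ∀ (T : ℕ → Finset ℕ) (M : ℕ),
        ({k : ℕ | k ∈ T M ∧ ¬ NoCongruence (E (x n)).1 (E (x n)).2 (E' k).1 (E' k).2}.ncard : ℝ) ≤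
        ({k : ℕ | k ∈ T M ∧ ¬ Pool.Agent.N645.TF.T2 (E (x n)).1 (E (x n)).2 (E' k).1
          (E' k).2}.ncard : ℝ) := by
      intro T M
      refine Nat.cast_le.2 (Set.ncard_le_ncard ?_ ((Finset.finite_toSet (T M)).subset
        fun k hk => hk.1))
      rintro k ⟨hk, hk'⟩
      exact ⟨hk, fun h => hk' (no_cong h)⟩
    refine hn' ⟨fun a b h0 hle => no_cong (g1.1 a b h0 ?_), fun M hM => ?_, fun M hM => ?_⟩
    · refine le_trans (le_of_eq ?_) hle
      unfold Pool.Agent.W275.FM.dsc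
      push_cast
      rfl
    · exact (hmono ints M).trans (g1.2 M hM)
    · exact (hmono primes M).trans (g2.2 M hM)
  have hf1 : {n : ℕ | n ∈ S N ∧ ¬ Pool.Agent.N645.TF.Gd (E (x n)) ints E' η N}.Finite :=
    (Finset.finite_toSet (S N)).subset fun k hk => hk.1
  have hf2 : {n : ℕ | n ∈ S N ∧ ¬ Pool.Agent.N645.TF.Gd (E (x n)) primes E' η N}.Finite :=
    (Finset.finite_toSet (S N)).subset fun k hk => hk.1
  have h5 := (Set.ncard_le_ncard hsub (hf1.union hf2)).trans (Set.ncard_union_le _ _)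
  have h6 : ({n : ℕ | n ∈ S N ∧ ¬ Good (E (x n)) E' η N}.ncard : ℝ) ≤
      ({n : ℕ | n ∈ S N ∧ ¬ Pool.Agent.N645.TF.Gd (E (x n)) ints E' η N}.ncard : ℝ) +
      ({n : ℕ | n ∈ S N ∧ ¬ Pool.Agent.N645.TF.Gd (E (x n)) primes E' η N}.ncard : ℝ) := by
    exact_mod_cast h5
  linarith

/-- **No congruences in thin sequences.** Let `E n` be a thin sequence of elliptic curves
`y² = x³ + ax + b` (a pair of integer parts of generalised polynomials, or a one-parameter family with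
an `I₁` fibre at the integer part of a generalised polynomial) and `E' k` a polynomial family of curves
in any number of parameters at a thin sequence. For all `ε > 0` there is `η > 0` such that for large `N`
for all but the proportion `ε` of the integers `n ∈ (N, 2N]`, and for all but the proportion `ε` of the
primes `n ∈ (N, 2N]`, the curve `E n` has no congruences with any elliptic curve with discriminant
`|4a³ + 27b²| ≤ N ^ η`, and for all `M ≥ N` it has congruences with at most the proportion `N ^ (-η)` of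
the curves `E' k`, `k ∈ (M, 2M]`, and at most the same proportion of the `E' k`, `k` a prime of
`(M, 2M]`. -/
theorem result (E E' : ℕ → ℤ × ℤ) (hE : Source E) (hE' : Target E') (ε : ℝ) (hε : 0 < ε) :
    ∃ η : ℝ, 0 < η ∧ ∃ N₀ : ℕ, ∀ N : ℕ, N₀ ≤ N →
      ({n : ℕ | n ∈ ints N ∧ ¬ Good (E n) E' η N}.ncard : ℝ) ≤ ε * (ints N).card ∧
      ({n : ℕ | n ∈ primes N ∧ ¬ Good (E n) E' η N}.ncard : ℝ) ≤ ε * (primes N).card := by
  obtain ⟨r', x', A', B', hx', hD, hE'⟩ := hE'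
  have hE'' : E' = fun k => (MvPolynomial.eval (x' k) A', MvPolynomial.eval (x' k) B') :=
    funext hE'
  obtain ⟨r, x, E₀, hx, hsrc, hE₀⟩ : ∃ (r : ℕ) (x : ℕ → Fin (r + 1) → ℤ)
      (E₀ : (Fin (r + 1) → ℤ) → ℤ × ℤ), Thin x ∧ Pool.Agent.N645.TF.Src E₀ ∧
      ∀ n, E n = E₀ (x n) := by
    rcases hE with ⟨x, hx, h⟩ | ⟨x, A, B, P, hx, hP, hd, h1, h2, h⟩
    · exact ⟨1, x, _, hx, Pool.Agent.N645.TF.src_two, h⟩
    · exact ⟨0, x, _, hx, Pool.Agent.N645.TF.src_one A B P hP hd h1 h2, h⟩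
  obtain ⟨w1, w2⟩ := well hx
  obtain ⟨η₁, hη₁, h₁⟩ := main_aux E₀ hsrc A' B' hD hx' w1 ε hε
  obtain ⟨η₂, hη₂, h₂⟩ := main_aux E₀ hsrc A' B' hD hx' w2 ε hε
  obtain ⟨N₁, hN₁⟩ := h₁ (min η₁ η₂) (lt_min hη₁ hη₂) (min_le_left _ _)
  obtain ⟨N₂, hN₂⟩ := h₂ (min η₁ η₂) (lt_min hη₁ hη₂) (min_le_right _ _)
  refine ⟨min η₁ η₂, lt_min hη₁ hη₂, max N₁ N₂, fun N hN => ⟨?_, ?_⟩⟩
  · rw [hE'']
    simp only [hE₀]
    exact hN₁ N ((le_max_left _ _).trans hN)
  · rw [hE'']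
    simp only [hE₀]
    exact hN₂ N ((le_max_right _ _).trans hN)

end Pool.Agent.Results.MP_f5d5f4_nt.ThinSequences
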